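import Pool.Agent.H57.UGB.Defs

/-!
# Points of the space of jets over the dual numbers
-/

set_option autoImplicit false

open MvPolynomial

namespace Pool.Agent.H23.UGB

open Pool.Agent.H47.KB Pool.Agent.H47.UG Pool.Agent.H57.UGB

section dual

variable {n k : ℕ} {R : Type} [CommRing R]

/-- The power series `y + ε z` over the dual numbers. -/
noncomputable def dl (y z : PowerSeries R) : PowerSeries (TrivSqZeroExt R R) :=
  PowerSeries.mk fun s => TrivSqZeroExt.inl (PowerSeries.coeff s y) + TrivSqZeroExt.inr (PowerSeries.coeff s z)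

theorem fst_coeff_dl (y z : PowerSeries R) (s : ℕ) :
    (PowerSeries.coeff s (dl y z)).fst = PowerSeries.coeff s y := by
  simp [dl]

theorem snd_coeff_dl (y z : PowerSeries R) (s : ℕ) :
    (PowerSeries.coeff s (dl y z)).snd = PowerSeries.coeff s z := by
  simp [dl]

theorem dl_mul (y z y' z' : PowerSeries R) : dl y z * dl y' z' = dl (y * y') (y * z' + z * y') := by
  ext s
  · rw [fst_coeff_dl, PowerSeries.coeff_mul, TrivSqZeroExt.fst_sum, PowerSeries.coeff_mul]
    refine Finset.sum_congr rfl fun x _ => ?_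
    rw [TrivSqZeroExt.fst_mul, fst_coeff_dl, fst_coeff_dl]
  · rw [snd_coeff_dl, PowerSeries.coeff_mul, TrivSqZeroExt.snd_sum, map_add, PowerSeries.coeff_mul,
      PowerSeries.coeff_mul, ← Finset.sum_add_distrib]
    refine Finset.sum_congr rfl fun x _ => ?_
    rw [TrivSqZeroExt.snd_mul, fst_coeff_dl, fst_coeff_dl, snd_coeff_dl, snd_coeff_dl]
    simp [smul_eq_mul]

theorem dl_one : dl (1 : PowerSeries R) 0 = 1 := by
  ext s
  · rw [fst_coeff_dl, PowerSeries.coeff_one, PowerSeries.coeff_one]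
    split_ifs <;> simp
  · rw [snd_coeff_dl, PowerSeries.coeff_one]
    split_ifs <;> simp

/-- The coefficients `a + ε b` over the dual numbers. -/
noncomputable def da (a b : (Fin (n + 2) →₀ ℕ) → R) : (Fin (n + 2) →₀ ℕ) → TrivSqZeroExt R R :=
  fun α => TrivSqZeroExt.inl (a α) + TrivSqZeroExt.inr (b α)

theorem dual_ind [Algebra ℂ R] (a b : (Fin (n + 2) →₀ ℕ) → R) (y z : Fin (n + 2) → PowerSeries R) (κ : R)
    (W : Derivation ℂ (JR n k) (JR n k)) (h1 : ∀ α, κ * b α = pt a y (W (X (Sum.inl α))))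
    (h2 : ∀ v : Fin (n + 2) × Fin (k + 1),
      κ * PowerSeries.coeff (v.2 : ℕ) (z v.1) = pt a y (W (X (Sum.inr v)))) (P : JR n k) :
    (pt (da a b) (fun j => dl (y j) (z j)) P).fst = pt a y P ∧
      κ * (pt (da a b) (fun j => dl (y j) (z j)) P).snd = pt a y (W P) := by
  have hX : ∀ v, (pt (da a b) (fun j => dl (y j) (z j)) (X v : JR n k)).fst = pt a y (X v) ∧
      κ * (pt (da a b) (fun j => dl (y j) (z j)) (X v : JR n k)).snd = pt a y (W (X v)) := by
    intro v
    unfold pt
    rw [aeval_X, aeval_X]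
    rcases v with α | v
    · simp only [Sum.elim_inl, da]
      constructor
      · simp
      · rw [TrivSqZeroExt.snd_add, TrivSqZeroExt.snd_inl, TrivSqZeroExt.snd_inr, zero_add]
        exact h1 α
    · simp only [Sum.elim_inr]
      rw [fst_coeff_dl, snd_coeff_dl]
      exact ⟨rfl, h2 v⟩
  induction P using MvPolynomial.induction_on with
  | C c =>
    have h3 : (C c : JR n k) = algebraMap ℂ (JR n k) c := rfl
    rw [h3, AlgHom.commutes, AlgHom.commutes, Derivation.map_algebraMap, map_zero]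
    constructor
    · rfl
    · rw [TrivSqZeroExt.algebraMap_eq_inl']
      simp
  | add p q hp hq =>
    rw [map_add, map_add, map_add, map_add, TrivSqZeroExt.fst_add, TrivSqZeroExt.snd_add, hp.1, hq.1,
      mul_add, hp.2, hq.2]
    exact ⟨rfl, rfl⟩
  | mul_X p v hp =>
    rw [map_mul, map_mul, Derivation.leibniz, map_add, TrivSqZeroExt.fst_mul, TrivSqZeroExt.snd_mul, hp.1,
      (hX v).1]
    refine ⟨rfl, ?_⟩
    simp only [smul_eq_mul, op_smul_eq_mul, map_mul]
    rw [← hp.2, ← (hX v).2]
    ring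

end dual

end Pool.Agent.H23.UGB
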