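import Pool.Agent.H23.UGB.Dual
import Pool.Agent.H57.UGB.Api
import Pool.Agent.H18.UG.Hom

/-!
# Slanted fields lower the twist by `5k`
-/

set_option autoImplicit false

open MvPolynomial

namespace Pool.Agent.H23.UGB

open Pool.Agent.H47.KB Pool.Agent.H47.UG Pool.Agent.H57.UGB

/-- The tangent vector of `V` at the universal point, as power series. -/
noncomputable def tv {n k : ℕ} (V : Fin (n + 2) × Fin (k + 1) → JR n k) (j : Fin (n + 2)) :
    PowerSeries (JR n k) :=
  PowerSeries.mk fun s => if h : s < k + 1 then V (j, ⟨s, h⟩) else 0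

theorem coeff_mul_congr {R : Type} [CommRing R] {k s : ℕ} (hs : s ≤ k) {f f' g g' : PowerSeries R}
    (h : ∀ r ≤ k, PowerSeries.coeff r f = PowerSeries.coeff r f')
    (h' : ∀ r ≤ k, PowerSeries.coeff r g = PowerSeries.coeff r g') :
    PowerSeries.coeff s (f * g) = PowerSeries.coeff s (f' * g') := by
  rw [PowerSeries.coeff_mul, PowerSeries.coeff_mul]
  refine Finset.sum_congr rfl fun x hx => ?_
  have hx2 := Finset.HasAntidiagonal.mem_antidiagonal.1 hx
  rw [h x.1 (by omega), h' x.2 (by omega)]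

end Pool.Agent.H23.UGB

namespace Pool.Agent.H57.UGB

open Pool.Agent.H47.KB Pool.Agent.H47.UG Pool.Agent.H23.UGB

theorem neg_step (n d k : ℕ) (_hk : 1 ≤ k) (c : Cof n) (e : ℕ) (P : JR n k)
    (V : Derivation ℂ (JR n k) (JR n k)) (hV : IsFld n d k V) (h : Neg n d k c (e + 5 * k) P) :
    Neg n d k c e (V P) := by
  classical
  intro i
  obtain ⟨Q, hQ⟩ := h i
  -- the values of `V`, written in the chart `i`
  have h1 : ∀ v : Vr n k, ∃ W : JR n k, ∀ (R : Type) [CommRing R] [Algebra ℂ R]
      (a : (Fin (n + 2) →₀ ℕ) → R) (y u : Fin (n + 2) → PowerSeries R), y 0 = 1 →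
      (∀ j, y j * u 0 = u j) → pt a u W = PowerSeries.constantCoeff (u 0) ^ (5 * k) * pt a y (V (X v)) := by
    intro v
    obtain ⟨W, hW⟩ := hom n k 0 (5 * k) (V (X v)) (hV.deg v)
    exact ⟨W, fun R _ _ a y u h2 h3 => hW R a u y h2 h3⟩
  choose W hW using h1
  -- the derivation in the chart `i`
  let Wy : Fin (n + 2) → PowerSeries (JR n k) := fun j =>
    (tv (fun v => W (Sum.inr v)) j - uy n k j * tv (fun v => W (Sum.inr v)) i) * uy n k 0
  let D : Derivation ℂ (JR n k) (JR n k) := mkDerivation ℂ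
    (Sum.elim (fun α => W (Sum.inl α)) fun v => PowerSeries.coeff (v.2 : ℕ) (Wy v.1))
  refine ⟨D Q, ?_⟩
  intro R _ _ a y u hT hy hu huy hc hFLu hyi
  have hu0 : u 0 * y i = 1 := by rw [huy 0, hy]
  have hyu : ∀ j, y j * u 0 = u j := by
    intro j
    rw [← huy j, mul_assoc, mul_comm (y i), hu0, mul_one]
  -- the tangent vector
  let b : (Fin (n + 2) →₀ ℕ) → R := fun α => pt a y (V (X (Sum.inl α)))
  let z : Fin (n + 2) → PowerSeries R := fun j =>
    PowerSeries.mk fun s => if h : s < k + 1 then pt a y (V (X (Sum.inr (j, (⟨s, h⟩ : Fin (k + 1)))))) else 0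
  have hz : ∀ v : Fin (n + 2) × Fin (k + 1), PowerSeries.coeff (v.2 : ℕ) (z v.1) =
      pt a y (V (X (Sum.inr v))) := by
    intro v
    simp only [z, PowerSeries.coeff_mk]
    rw [dif_pos v.2.2]
  have hz0 : z 0 = 0 := by
    ext s
    simp only [z, PowerSeries.coeff_mk, map_zero]
    split_ifs with hs
    · rw [hV.nrm, map_zero]
    · rfl
  have hzc : ∀ j, PowerSeries.constantCoeff (z j) = 0 := by
    intro j
    rw [← PowerSeries.coeff_zero_eq_constantCoeff_apply]
    have := hz (j, 0)
    simp only [Fin.val_zero] at this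
    rw [this, hV.zero, map_zero]
  let A := da a b
  let Y : Fin (n + 2) → PowerSeries (TrivSqZeroExt R R) := fun j => dl (y j) (z j)
  let zu : Fin (n + 2) → PowerSeries R := fun j => (z j - u j * z i) * u 0
  let U : Fin (n + 2) → PowerSeries (TrivSqZeroExt R R) := fun j => dl (u j) (zu j)
  have hP : ∀ G : JR n k, (pt A Y G).fst = pt a y G ∧ (pt A Y G).snd = pt a y (V G) := by
    intro G
    have h2 := dual_ind a b y z 1 V (fun α => one_mul _) (fun v => by rw [one_mul]; exact hz v) G
    rw [one_mul] at h2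
    exact h2
  -- the conditions on the dual point
  have hT' : OnT d k A Y := by
    intro s hs
    rw [← pt_Fc d hs A Y]
    apply TrivSqZeroExt.ext
    · rw [(hP _).1, pt_Fc d hs a y, hT s hs]
      rfl
    · rw [(hP _).2, hV.kill s hs R a y hy]
      rfl
  have hY0 : Y 0 = 1 := by
    change dl (y 0) (z 0) = 1
    rw [hy, hz0, dl_one]
  have hUi : U i = 1 := by
    change dl (u i) ((z i - u i * z i) * u 0) = 1
    rw [hu, one_mul, sub_self, zero_mul, dl_one]
  have hUY : ∀ j, U j * Y i = Y j := by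
    intro j
    change dl (u j) ((z j - u j * z i) * u 0) * dl (y i) (z i) = dl (y j) (z j)
    rw [dl_mul, huy j]
    congr 1
    have : u j * z i + (z j - u j * z i) * u 0 * y i = u j * z i + (z j - u j * z i) * (u 0 * y i) := by ring
    rw [this, hu0]
    ring
  have hc' : IsUnit (aeval A c) := by
    rw [TrivSqZeroExt.isUnit_iff_isUnit_fst]
    have h3 : ∀ q : Cof n, (aeval A q).fst = aeval a q := by
      intro q
      have h4 : (TrivSqZeroExt.fstHom ℂ R R).comp (aeval A) = aeval a := by
        refine MvPolynomial.algHom_ext fun α => ?_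
        rw [AlgHom.comp_apply, aeval_X, aeval_X]
        simp [A, da]
      exact AlgHom.congr_fun h4 q
    rw [h3]
    exact hc
  have hFL' : IsUnit (FL d A Y) := by
    rw [TrivSqZeroExt.isUnit_iff_isUnit_fst, ← pt_FL (k := k) d A Y, (hP _).1, pt_FL d a y]
    exact hFLu
  have hYi : PowerSeries.constantCoeff (Y i) = TrivSqZeroExt.inl (PowerSeries.constantCoeff (y i)) := by
    apply TrivSqZeroExt.ext
    · rw [← PowerSeries.coeff_zero_eq_constantCoeff_apply, ← PowerSeries.coeff_zero_eq_constantCoeff_apply,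
        fst_coeff_dl]
      rfl
    · rw [← PowerSeries.coeff_zero_eq_constantCoeff_apply, snd_coeff_dl,
        PowerSeries.coeff_zero_eq_constantCoeff_apply, hzc]
      rfl
  have hYu : IsUnit (PowerSeries.constantCoeff (Y i)) := by
    rw [hYi, TrivSqZeroExt.isUnit_inl_iff]
    exact hyi
  have h5 := hQ (TrivSqZeroExt R R) A Y U hT' hY0 hUi hUY hc' hFL' hYu
  have h6 : PowerSeries.constantCoeff (y i) ^ (e + 5 * k) * pt a y (V P) = (pt A U Q).snd := by
    have h7 := congrArg TrivSqZeroExt.snd h5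
    rw [hYi, TrivSqZeroExt.inl_pow, TrivSqZeroExt.snd_mul, TrivSqZeroExt.fst_inl, TrivSqZeroExt.snd_inl,
      (hP P).2] at h7
    simpa using h7
  have h8 : PowerSeries.constantCoeff (u 0) ^ (5 * k) * (pt A U Q).snd = pt a u (D Q) := by
    refine (dual_ind a b u zu (PowerSeries.constantCoeff (u 0) ^ (5 * k)) D ?_ ?_ Q).2
    · intro α
      rw [mkDerivation_X, Sum.elim_inl]
      exact (hW (Sum.inl α) R a y u hy hyu).symm
    · intro v
      rw [mkDerivation_X, Sum.elim_inr]
      -- compare coefficients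
      have h9 : ∀ r ≤ k, ∀ j, PowerSeries.coeff r (PowerSeries.map ((pt a u : JR n k →ₐ[ℂ] R) : JR n k →+* R)
          (uy n k j)) = PowerSeries.coeff r (u j) := by
        intro r hr j
        rw [PowerSeries.coeff_map]
        simp only [uy, PowerSeries.coeff_mk]
        rw [dif_pos (Nat.lt_succ_of_le hr)]
        change pt a u (X (Sum.inr (j, ⟨r, _⟩))) = _
        unfold pt
        rw [aeval_X]
        rfl
      have h10 : ∀ r ≤ k, ∀ j, PowerSeries.coeff r (PowerSeries.map ((pt a u : JR n k →ₐ[ℂ] R) : JR n k →+* R)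
          (tv (fun v => W (Sum.inr v)) j)) =
          PowerSeries.coeff r (PowerSeries.C (PowerSeries.constantCoeff (u 0) ^ (5 * k)) * z j) := by
        intro r hr j
        rw [PowerSeries.coeff_map, PowerSeries.coeff_C_mul]
        simp only [tv, PowerSeries.coeff_mk, z]
        rw [dif_pos (Nat.lt_succ_of_le hr), dif_pos (Nat.lt_succ_of_le hr)]
        exact hW (Sum.inr (j, ⟨r, _⟩)) R a y u hy hyu
      have h11 : pt a u (PowerSeries.coeff (v.2 : ℕ) (Wy v.1)) =
          PowerSeries.coeff (v.2 : ℕ) (PowerSeries.map ((pt a u : JR n k →ₐ[ℂ] R) : JR n k →+* R) (Wy v.1)) := by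
        rw [PowerSeries.coeff_map]
        rfl
      have hv : (v.2 : ℕ) ≤ k := Nat.le_of_lt_succ v.2.2
      rw [h11]
      simp only [Wy, map_mul, map_sub]
      have h12 : PowerSeries.coeff (v.2 : ℕ)
          ((PowerSeries.map ((pt a u : JR n k →ₐ[ℂ] R) : JR n k →+* R) (tv (fun v => W (Sum.inr v)) v.1) -
            PowerSeries.map ((pt a u : JR n k →ₐ[ℂ] R) : JR n k →+* R) (uy n k v.1) *
              PowerSeries.map ((pt a u : JR n k →ₐ[ℂ] R) : JR n k →+* R) (tv (fun v => W (Sum.inr v)) i)) *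
            PowerSeries.map ((pt a u : JR n k →ₐ[ℂ] R) : JR n k →+* R) (uy n k 0)) =
          PowerSeries.coeff (v.2 : ℕ)
            ((PowerSeries.C (PowerSeries.constantCoeff (u 0) ^ (5 * k)) * z v.1 -
              u v.1 * (PowerSeries.C (PowerSeries.constantCoeff (u 0) ^ (5 * k)) * z i)) * u 0) := by
        refine coeff_mul_congr hv (fun r hr => ?_) fun r hr => h9 r hr 0
        rw [map_sub, map_sub, h10 r hr]
        congr 1
        exact coeff_mul_congr hr (fun r' hr' => h9 r' (by omega) v.1) fun r' hr' => h10 r' (by omega) i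
      rw [h12, ← PowerSeries.coeff_C_mul]
      congr 1
      simp only [zu]
      ring
  have h13 : PowerSeries.constantCoeff (u 0) * PowerSeries.constantCoeff (y i) = 1 := by
    rw [← map_mul, hu0, map_one]
  rw [← h8, ← h6, pow_add]
  have h14 : PowerSeries.constantCoeff (u 0) ^ (5 * k) * PowerSeries.constantCoeff (y i) ^ (5 * k) = 1 := by
    rw [← mul_pow, h13, one_pow]
  calc PowerSeries.constantCoeff (y i) ^ e * pt a y (V P)
      = PowerSeries.constantCoeff (y i) ^ e * (PowerSeries.constantCoeff (u 0) ^ (5 * k) *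
          PowerSeries.constantCoeff (y i) ^ (5 * k)) * pt a y (V P) := by rw [h14, mul_one]
    _ = _ := by ring

theorem neg_word (n d k : ℕ) (hk : 1 ≤ k) (c : Cof n) (e : ℕ)
    (w : List (Derivation ℂ (JR n k) (JR n k))) (hw : IsWd n d k w) (P : JR n k)
    (h : Neg n d k c (e + 5 * k * w.length) P) : Neg n d k c e (wd w P) := by
  induction w generalizing e with
  | nil =>
    simpa [wd] using h
  | cons V w ih =>
    have h1 : Neg n d k c (e + 5 * k) (wd w P) := by
      refine ih (e + 5 * k) (fun V' hV' => hw V' (List.mem_cons_of_mem _ hV')) ?_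
      have h2 : e + 5 * k + 5 * k * w.length = e + 5 * k * (V :: w).length := by
        rw [List.length_cons]
        ring
      rw [h2]
      exact h
    exact neg_step n d k hk c e (wd w P) V (hw V List.mem_cons_self) h1

end Pool.Agent.H57.UGB
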